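import Pool.Agent.X302.TR.Stm

/-! Part STEP of project TR (MP_0e8110_lc): one step of the descent. -/

set_option autoImplicit false

namespace Pool.Agent.X9.TR
open Filter Topology Pool.Agent.X302.TR

variable {n : ℕ}

theorem val_exp (F : Cub n) (e s : V n) (l : ℝ) :
    F.val (l • e + s) = l ^ 3 * F.T e e e + l ^ 2 * F.A e s + l * F.B e s + F.val s := by
  unfold Cub.val Cub.A Cub.B
  simp only [map_add, map_smul, LinearMap.add_apply, LinearMap.smul_apply, smul_eq_mul]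
  have h1 := F.T2 e s e
  have h2 := F.T1 s e e
  have h3 := F.T1 s e s
  have h4 := F.T2 s s e
  have h5 := F.Q1 s e
  linear_combination 2 * l ^ 2 * h1 + l ^ 2 * h2 + 2 * l * h3 + l * h4 + l * h5

theorem t_STEP0 : S_STEP0 := by
  intro n F e s l l' h1 h2 h3 h4
  rw [val_exp, val_exp, h1, h2]
  have := mul_le_mul_of_nonneg_right h4 h3
  linarith

theorem lin_bd (φ : V n →ₗ[ℝ] ℝ) : ∃ C : ℝ, 0 ≤ C ∧ ∀ x, |φ x| ≤ C * ‖x‖ := by
  refine ⟨∑ i, |φ (fun j => if i = j then 1 else 0)|, Finset.sum_nonneg fun i _ => abs_nonneg _,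
    fun x => ?_⟩
  rw [LinearMap.pi_apply_eq_sum_univ φ x, Finset.sum_mul]
  refine (Finset.abs_sum_le_sum_abs _ _).trans (Finset.sum_le_sum fun i _ => ?_)
  rw [smul_eq_mul, abs_mul, mul_comm]
  refine mul_le_mul_of_nonneg_left ?_ (abs_nonneg _)
  exact norm_le_pi_norm x i

theorem bil_bd (B : V n →ₗ[ℝ] V n →ₗ[ℝ] ℝ) :
    ∃ C : ℝ, 0 ≤ C ∧ ∀ x y, |B x y| ≤ C * ‖x‖ * ‖y‖ := by
  choose C hC0 hC using fun i : Fin n => lin_bd (B (fun j => if i = j then 1 else 0))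
  refine ⟨∑ i, C i, Finset.sum_nonneg fun i _ => hC0 i, fun x y => ?_⟩
  rw [LinearMap.pi_apply_eq_sum_univ B x, LinearMap.sum_apply, Finset.sum_mul, Finset.sum_mul]
  refine (Finset.abs_sum_le_sum_abs _ _).trans (Finset.sum_le_sum fun i _ => ?_)
  rw [LinearMap.smul_apply, smul_eq_mul, abs_mul]
  have h1 : |x i| ≤ ‖x‖ := norm_le_pi_norm x i
  calc |x i| * |B (fun j => if i = j then 1 else 0) y|
      ≤ ‖x‖ * (C i * ‖y‖) := mul_le_mul h1 (hC i y) (abs_nonneg _) (norm_nonneg _)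
    _ = C i * ‖x‖ * ‖y‖ := by ring

theorem t_STEP : S_STEP := by
  intro n U F e R c K lam mu ρ s w r hR hc hK hT h hlim hlam
  obtain ⟨C1, hC1, hb1⟩ := bil_bd (F.T e)
  obtain ⟨C2, hC2, hb2⟩ := bil_bd F.Q
  obtain ⟨K', hK'⟩ : ∃ K', K' = 9 * C1 * K ^ 2 + 4 * C2 * ‖e‖ * K + |F.L e| + 1 := ⟨_, rfl⟩
  have hK'0 : 0 < K' := by rw [hK']; positivity
  have hδ : 0 < min (1 / R) (c / K') := by positivity
  filter_upwards [h, hlim.eventually (gt_mem_nhds hδ), hlam.eventually_gt_atTop 0] with k hk hk1 hk2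
  obtain ⟨hs, hρ1, hρm, hw, hr, hA, hTw⟩ := hk
  have hk1' : mu k / lam k < min (1 / R) (c / K') := hk1
  rw [lt_min_iff, div_lt_iff₀ hk2, div_lt_iff₀ hk2] at hk1'
  obtain ⟨hm1, hm2⟩ := hk1'
  have hmu : 1 ≤ mu k := hρ1.trans hρm
  have hRm : R * mu k < lam k := by
    have := mul_lt_mul_of_pos_left hm1 hR
    have e1 : R * (1 / R * lam k) = lam k := by field_simp
    linarith
  have hKm : K' * mu k < c * lam k := by
    have := mul_lt_mul_of_pos_left hm2 hK'0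
    have e1 : K' * (c / K' * lam k) = c * lam k := by field_simp
    linarith
  -- bounds
  have hρ0 : 0 ≤ ρ k := by linarith
  have hmρ : mu k ≤ mu k * ρ k := by nlinarith
  have h1mρ : 1 ≤ mu k * ρ k := by nlinarith
  have hρρ : ρ k * ρ k ≤ mu k * ρ k := mul_le_mul_of_nonneg_right hρm hρ0
  have b1 : |F.T e (w k) (r k)| ≤ C1 * K ^ 2 * (mu k * ρ k) := by
    refine (hb1 _ _).trans ?_
    calc C1 * ‖w k‖ * ‖r k‖ ≤ C1 * (K * mu k) * (K * ρ k) := by gcongr
      _ = _ := by ring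
  have b2 : |F.T e (r k) (w k)| ≤ C1 * K ^ 2 * (mu k * ρ k) := by
    refine (hb1 _ _).trans ?_
    calc C1 * ‖r k‖ * ‖w k‖ ≤ C1 * (K * ρ k) * (K * mu k) := by gcongr
      _ = _ := by ring
  have b3 : |F.T e (r k) (r k)| ≤ C1 * K ^ 2 * (mu k * ρ k) := by
    refine (hb1 _ _).trans ?_
    calc C1 * ‖r k‖ * ‖r k‖ ≤ C1 * (K * ρ k) * (K * ρ k) := by gcongr
      _ = C1 * K ^ 2 * (ρ k * ρ k) := by ring
      _ ≤ _ := by gcongr
  have b4 : |F.Q e (s k)| ≤ 2 * C2 * ‖e‖ * K * (mu k * ρ k) := by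
    refine (hb2 _ _).trans ?_
    have h1 : ‖s k‖ ≤ 2 * K * (mu k * ρ k) := by
      rw [hs]
      refine (norm_add_le _ _).trans ?_
      have h2 : K * ρ k ≤ K * mu k := by gcongr
      have h3 : K * mu k ≤ K * (mu k * ρ k) := by gcongr
      linarith
    calc C2 * ‖e‖ * ‖s k‖ ≤ C2 * ‖e‖ * (2 * K * (mu k * ρ k)) := by gcongr
      _ = _ := by ring
  have b5 : |F.L e| ≤ |F.L e| * (mu k * ρ k) := le_mul_of_one_le_right (abs_nonneg _) h1mρ
  have hB : -(K' * (mu k * ρ k)) ≤ F.B e (s k) := by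
    have e1 : F.B e (s k) = 3 * (F.T e (w k) (w k) + F.T e (w k) (r k) + F.T e (r k) (w k) +
        F.T e (r k) (r k)) + 2 * F.Q e (s k) + F.L e := by
      unfold Cub.B
      rw [show F.T e (s k) (s k) = F.T e (w k) (w k) + F.T e (w k) (r k) + F.T e (r k) (w k) +
        F.T e (r k) (r k) by
          rw [hs]; simp only [map_add, LinearMap.add_apply]; ring]
    rw [e1, hK']
    have a1 := (abs_le.1 b1).1
    have a2 := (abs_le.1 b2).1
    have a3 := (abs_le.1 b3).1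
    have a4 := (abs_le.1 b4).1
    have a5 := (neg_abs_le (F.L e))
    nlinarith
  have hA0 : 0 ≤ F.A e (s k) := le_trans (by positivity) hA
  have hmain : 0 ≤ (lam k + R * mu k) * F.A e (s k) + F.B e (s k) := by
    have h1 : lam k * (c * ρ k) ≤ lam k * F.A e (s k) := by gcongr
    have h2 : 0 ≤ R * mu k * F.A e (s k) := by positivity
    have h3 : K' * mu k * ρ k ≤ c * lam k * ρ k := by gcongr
    nlinarith
  rw [val_exp, val_exp, hT]
  have := mul_nonneg (show 0 ≤ lam k - R * mu k by linarith) hmain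
  nlinarith

end Pool.Agent.X9.TR
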